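import Pool.Agent.Lib.LQ.MainNG
import Pool.Agent.Lib.LQ.ChangeGen

/-!
The cursor maps of a quasi-isometry between lamplighter groups (MP_9bf8b0_al, theorem CursorMap).
-/

set_option autoImplicit false

open Classical
open scoped Pointwise symmDiff

noncomputable section

namespace P9bf8b0H

open LQ LQ.LL

variable {A B : Type} [Group A] [Group B]

/-- `exists_pair` for a given map. -/
theorem pair_of_map (a : NG A) (b : NG B) (ψ : LL A → LL B) (K0 : ℕ)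
    (h1 : ∀ x y, b.wr.len ((ψ x)⁻¹ * ψ y) ≤ K0 * a.wr.len (x⁻¹ * y) + K0)
    (h2 : ∀ x y, a.wr.len (x⁻¹ * y) ≤ K0 * b.wr.len ((ψ x)⁻¹ * ψ y) + K0)
    (h3 : ∀ z, ∃ x, b.wr.len ((ψ x)⁻¹ * z) ≤ K0) :
    ∃ (K : ℕ) (φ : LL B → LL A), QD a b K ψ ∧ QD b a K φ ∧
      (∀ X, a.wr.len (X⁻¹ * φ (ψ X)) ≤ K) ∧ (∀ Y, b.wr.len (Y⁻¹ * ψ (φ Y)) ≤ K) := by
  choose φ hφ using h3
  set K : ℕ := 10 * (K0 + 1) ^ 2 with hK
  have k1 : K0 ≤ K := by nlinarith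
  have k2 : 2 * K0 * K0 + 3 * K0 ≤ K := by nlinarith
  have k3 : 1 ≤ K := by nlinarith
  have hψφ : ∀ Y, b.wr.len (Y⁻¹ * ψ (φ Y)) ≤ K0 := by
    intro Y
    rw [b.wr.len_symm]
    exact hφ Y
  have hφψ : ∀ X, a.wr.len ((φ (ψ X))⁻¹ * X) ≤ K := by
    intro X
    have e1 := h2 (φ (ψ X)) X
    have e2 := hφ (ψ X)
    have e3 : K0 * b.wr.len ((ψ (φ (ψ X)))⁻¹ * ψ X) ≤ K0 * K0 := Nat.mul_le_mul le_rfl e2
    have e4 : K0 * K0 + K0 ≤ K := by nlinarith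
    omega
  refine ⟨K, φ, ⟨k3, ?_, ?_, ?_⟩, ⟨k3, ?_, ?_, ?_⟩, ?_, fun Y => (hψφ Y).trans k1⟩
  · intro X g hg
    have e1 := h1 X (X * g)
    rw [inv_mul_cancel_left] at e1
    have e2 : K0 * a.wr.len g ≤ K0 * 1 := Nat.mul_le_mul le_rfl hg
    have e3 : K0 * 1 + K0 ≤ K := by nlinarith
    omega
  · intro X X'
    have e1 := h2 X X'
    have e2 : K0 * b.wr.len ((ψ X)⁻¹ * ψ X') ≤ K * b.wr.len ((ψ X)⁻¹ * ψ X') :=
      Nat.mul_le_mul k1 le_rfl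
    omega
  · intro Y
    exact ⟨φ Y, (hφ Y).trans k1⟩
  · intro Y g hg
    have e1 := h2 (φ Y) (φ (Y * g))
    have e2 := b.wr.tri (ψ (φ Y)) Y (ψ (φ (Y * g)))
    have e3 := b.wr.tri Y (Y * g) (ψ (φ (Y * g)))
    rw [inv_mul_cancel_left] at e3
    have e4 := hφ Y
    have e5 := hψφ (Y * g)
    have e6 : K0 * b.wr.len ((ψ (φ Y))⁻¹ * ψ (φ (Y * g))) ≤ K0 * (2 * K0 + 1) :=
      Nat.mul_le_mul le_rfl (by omega)
    have e7 : K0 * (2 * K0 + 1) + K0 ≤ K := by nlinarith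
    omega
  · intro Y Y'
    have e2 := b.wr.tri Y (ψ (φ Y)) Y'
    have e3 := b.wr.tri (ψ (φ Y)) (ψ (φ Y')) Y'
    have e4 := hψφ Y
    have e5 := hφ Y'
    have e6 := h1 (φ Y) (φ Y')
    have e7 : K0 * a.wr.len ((φ Y)⁻¹ * φ Y') ≤ K * a.wr.len ((φ Y)⁻¹ * φ Y') :=
      Nat.mul_le_mul k1 le_rfl
    have e8 : 3 * K0 ≤ K := by nlinarith
    omega
  · intro X
    exact ⟨ψ X, hφψ X⟩
  · intro X
    rw [a.wr.len_symm]
    exact hφψ X

/-- The cursor maps of a quasi-isometry, uniformly in the lamp configuration. -/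
theorem cursor_infinite {a : NG A} {b : NG B} {ψ : LL A → LL B} {φ : LL B → LL A} {K : ℕ}
    (hψ : QD a b K ψ) (hφ : QD b a K φ) (h1 : ∀ X, a.wr.len (X⁻¹ * φ (ψ X)) ≤ K)
    (h2 : ∀ Y, b.wr.len (Y⁻¹ * ψ (φ Y)) ≤ K) (dψ : Drift a b ψ) (dφ : Drift b a φ) :
    ∃ M : ℕ, ∀ c : Finset A,
      (∀ x y, b.len ((ψ ⟨c, x⟩).q⁻¹ * (ψ ⟨c, y⟩).q) ≤ M * a.len (x⁻¹ * y) + M) ∧
      (∀ x y, a.len (x⁻¹ * y) ≤ M * b.len ((ψ ⟨c, x⟩).q⁻¹ * (ψ ⟨c, y⟩).q) + M) ∧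
      (∀ z, ∃ x, b.len ((ψ ⟨c, x⟩).q⁻¹ * z) ≤ M) := by
  have hK1 : 1 ≤ K := hψ.kpos
  have hKr : (1 : ℝ) ≤ K := by exact_mod_cast hK1
  obtain ⟨C1, hC1⟩ := dψ (1 / (4 * (K : ℝ))) (by positivity)
  obtain ⟨C2, hC2⟩ := dφ (1 / (4 * (K : ℝ))) (by positivity)
  obtain ⟨N, hN⟩ := exists_nat_ge (max C1 C2)
  have hN1 : C1 ≤ N := (le_max_left _ _).trans hN
  have hN2 : C2 ≤ N := (le_max_right _ _).trans hN
  refine ⟨4 * K + 2 * N + 4, fun c => ?_⟩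
  -- the translated pair
  set ψ' : LL A → LL B := fun X => ψ (LL.lamp c * X) with hψ'
  set φ' : LL B → LL A := fun Y => (LL.lamp c)⁻¹ * φ Y with hφ'
  have hcx : ∀ x : A, ψ ⟨c, x⟩ = ψ' (LL.mv x) := by
    intro x
    rw [hψ']
    show ψ ⟨c, x⟩ = ψ (LL.lamp c * LL.mv x)
    rw [← LL.eq_lamp_mul_mv ⟨c, x⟩]
  have qψ : QD a b K ψ' := by
    refine ⟨hψ.kpos, ?_, ?_, ?_⟩
    · intro X g hg
      have := hψ.q1 (LL.lamp c * X) g hg
      rw [mul_assoc] at this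
      exact this
    · intro X X'
      have := hψ.q2 (LL.lamp c * X) (LL.lamp c * X')
      have e : (LL.lamp c * X)⁻¹ * (LL.lamp c * X') = X⁻¹ * X' := by group
      rw [e] at this
      exact this
    · intro Y
      obtain ⟨X, hX⟩ := hψ.q3 Y
      refine ⟨(LL.lamp c)⁻¹ * X, ?_⟩
      show b.wr.len ((ψ (LL.lamp c * ((LL.lamp c)⁻¹ * X)))⁻¹ * Y) ≤ K
      rw [mul_inv_cancel_left]
      exact hX
  have qφ : QD b a K φ' := by
    refine ⟨hφ.kpos, ?_, ?_, ?_⟩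
    · intro X g hg
      have := hφ.q1 X g hg
      have e : (φ' X)⁻¹ * φ' (X * g) = (φ X)⁻¹ * φ (X * g) := by
        show ((LL.lamp c)⁻¹ * φ X)⁻¹ * ((LL.lamp c)⁻¹ * φ (X * g)) = _
        group
      rw [e]
      exact this
    · intro X X'
      have := hφ.q2 X X'
      have e : (φ' X)⁻¹ * φ' X' = (φ X)⁻¹ * φ X' := by
        show ((LL.lamp c)⁻¹ * φ X)⁻¹ * ((LL.lamp c)⁻¹ * φ X') = _
        group
      rw [e]
      exact this
    · intro Y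
      obtain ⟨X, hX⟩ := hφ.q3 (LL.lamp c * Y)
      refine ⟨X, ?_⟩
      have e : (φ' X)⁻¹ * Y = (φ X)⁻¹ * (LL.lamp c * Y) := by
        show ((LL.lamp c)⁻¹ * φ X)⁻¹ * Y = _
        group
      rw [e]
      exact hX
  have g1 : ∀ X, a.wr.len (X⁻¹ * φ' (ψ' X)) ≤ K := by
    intro X
    have := h1 (LL.lamp c * X)
    have e : X⁻¹ * φ' (ψ' X) = (LL.lamp c * X)⁻¹ * φ (ψ (LL.lamp c * X)) := by
      show X⁻¹ * ((LL.lamp c)⁻¹ * φ (ψ (LL.lamp c * X))) = _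
      group
    rw [e]
    exact this
  have g2 : ∀ Y, b.wr.len (Y⁻¹ * ψ' (φ' Y)) ≤ K := by
    intro Y
    show b.wr.len (Y⁻¹ * ψ (LL.lamp c * ((LL.lamp c)⁻¹ * φ Y))) ≤ K
    rw [mul_inv_cancel_left]
    exact h2 Y
  have d1 : ∀ X m, (b.len ((ψ' X).q⁻¹ * (ψ' (X * LL.lamp m)).q) : ℝ) ≤
      1 / (4 * (K : ℝ)) * a.kap m + C1 := by
    intro X m
    have := hC1 (LL.lamp c * X) m
    rw [mul_assoc] at this
    exact this
  have hq : ∀ Y, (φ' Y).q = (φ Y).q := by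
    intro Y
    show ((LL.lamp c)⁻¹ * φ Y).q = _
    rw [LL.lamp_inv, LL.mul_q]
    show 1 * _ = _
    rw [one_mul]
  have d2 : ∀ X m, (a.len ((φ' X).q⁻¹ * (φ' (X * LL.lamp m)).q) : ℝ) ≤
      1 / (4 * (K : ℝ)) * b.kap m + C2 := by
    intro X m
    rw [hq, hq]
    exact hC2 X m
  refine ⟨?_, ?_, ?_⟩
  · intro q q'
    rw [hcx, hcx]
    have t1 := (DeductAux.pos' qψ (LL.mv q) (LL.mv q')).trans
      (Nat.mul_le_mul_left K (DeductAux.mvlen q q'))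
    have t2 : K * a.len (q⁻¹ * q') ≤ (4 * K + 2 * N + 4) * a.len (q⁻¹ * q') :=
      Nat.mul_le_mul_right _ (by omega)
    omega
  · intro q q'
    rw [hcx, hcx]
    have t1 := DeductAux.lower qψ qφ g1 (fun X X' h => DeductAux.drift' d2 hN2 X X' h) q q'
    have t2 : a.len (q⁻¹ * q') ≤ (2 * K + 2) * b.len ((ψ' (LL.mv q)).q⁻¹ * (ψ' (LL.mv q')).q) +
      (4 * K + 2 * N) := by exact_mod_cast t1
    have t3 : (2 * K + 2) * b.len ((ψ' (LL.mv q)).q⁻¹ * (ψ' (LL.mv q')).q) ≤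
        (4 * K + 2 * N + 4) * b.len ((ψ' (LL.mv q)).q⁻¹ * (ψ' (LL.mv q')).q) :=
      Nat.mul_le_mul_right _ (by omega)
    omega
  · intro y
    obtain ⟨q, hq⟩ := DeductAux.surj qψ qφ g1 g2 (fun X X' h => DeductAux.drift' d1 hN1 X X' h) y
    refine ⟨q, ?_⟩
    rw [hcx]
    have t : b.len ((ψ' (LL.mv q)).q⁻¹ * y) ≤ 1 + 2 * N + 2 * K := by exact_mod_cast hq
    omega

/-- The cursor maps are quasi-isometries and the drift is sublinear, unless the base is infinite of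
linear growth. -/
theorem cursor_maps (a : NG A) (b : NG B) (ψ : LL A → LL B) (K0 : ℕ)
    (h1 : ∀ x y, b.wr.len ((ψ x)⁻¹ * ψ y) ≤ K0 * a.wr.len (x⁻¹ * y) + K0)
    (h2 : ∀ x y, a.wr.len (x⁻¹ * y) ≤ K0 * b.wr.len ((ψ x)⁻¹ * ψ y) + K0)
    (h3 : ∀ z, ∃ x, b.wr.len ((ψ x)⁻¹ * z) ≤ K0) (hA : ¬ (Infinite A ∧ Linear a)) :
    (∃ M : ℕ, ∀ c : Finset A,
      (∀ x y, b.len ((ψ ⟨c, x⟩).q⁻¹ * (ψ ⟨c, y⟩).q) ≤ M * a.len (x⁻¹ * y) + M) ∧
      (∀ x y, a.len (x⁻¹ * y) ≤ M * b.len ((ψ ⟨c, x⟩).q⁻¹ * (ψ ⟨c, y⟩).q) + M) ∧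
      (∀ z, ∃ x, b.len ((ψ ⟨c, x⟩).q⁻¹ * z) ≤ M)) ∧ Drift a b ψ := by
  obtain ⟨K, φ, hψ, hφ, g1, g2⟩ := pair_of_map a b ψ K0 h1 h2 h3
  by_cases fA : Finite A
  · have fB : Finite B := finite_of_finite hψ
    obtain ⟨Ka, ha⟩ := (Set.finite_range a.len).bddAbove
    obtain ⟨Kb, hb⟩ := (Set.finite_range b.len).bddAbove
    have ha' : ∀ x, a.len x ≤ Ka := fun x => ha ⟨x, rfl⟩
    have hb' : ∀ x, b.len x ≤ Kb := fun x => hb ⟨x, rfl⟩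
    refine ⟨⟨max Ka Kb, fun c => ⟨fun x y => ?_, fun x y => ?_, fun z => ⟨1, ?_⟩⟩⟩, ?_⟩
    · exact ((hb' _).trans (le_max_right _ _)).trans (Nat.le_add_left _ _)
    · exact ((ha' _).trans (le_max_left _ _)).trans (Nat.le_add_left _ _)
    · exact (hb' _).trans (le_max_right _ _)
    · intro η hη
      refine ⟨Kb, fun X m => ?_⟩
      have e1 : (b.len ((ψ X).q⁻¹ * (ψ (X * LL.lamp m)).q) : ℝ) ≤ Kb := by exact_mod_cast hb' _
      have e2 : 0 ≤ η * (a.kap m : ℝ) := by positivity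
      linarith
  · have iA : Infinite A := not_finite_iff_infinite.1 fA
    have fB : ¬ Finite B := by
      intro fB
      exact fA (finite_of_finite hφ)
    have iB : Infinite B := not_finite_iff_infinite.1 fB
    have la : ¬ Linear a := fun h => hA ⟨iA, h⟩
    have lb : ¬ Linear b := fun h => la (linear_of_linear hφ h)
    have d1 := drift_all hψ la
    have d2 := drift_all hφ lb
    exact ⟨cursor_infinite hψ hφ g1 g2 d1 d2, d1⟩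

/-- An infinite group of linear growth is virtually cyclic. -/
theorem virtually_cyclic [Infinite A] (a : NG A) (hl : Linear a) :
    ∃ g : A, (Subgroup.zpowers g).FiniteIndex := by
  obtain ⟨g, D, -, hD⟩ := exists_axis a hl
  refine ⟨g, ?_⟩
  -- every element is a power of `g` times an element of length at most `D`
  have hfin : Finite (A ⧸ Subgroup.zpowers g) := by
    have hs : Function.Surjective
        (fun t : {t : A | a.len t ≤ D} => (QuotientGroup.mk (t : A)⁻¹ : A ⧸ Subgroup.zpowers g)) := by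
      intro z
      obtain ⟨x, rfl⟩ := QuotientGroup.mk_surjective z
      obtain ⟨m, hm⟩ := hD x⁻¹
      refine ⟨⟨(g ^ m)⁻¹ * x⁻¹, hm⟩, ?_⟩
      apply QuotientGroup.eq.2
      show (((g ^ m)⁻¹ * x⁻¹)⁻¹)⁻¹ * x ∈ _
      have e : (((g ^ m)⁻¹ * x⁻¹)⁻¹)⁻¹ * x = (g ^ m)⁻¹ := by group
      rw [e]
      exact Subgroup.inv_mem _ (Subgroup.zpow_mem _ (Subgroup.mem_zpowers g) m)
    have : Finite {t : A | a.len t ≤ D} := (a.fin D).to_subtype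
    exact Finite.of_surjective _ hs
  exact Subgroup.finiteIndex_of_finite_quotient

end P9bf8b0H

end
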