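import Pool.Agent.Lib.P9bf8b0H.Cursor

/-!
Transport of word lengths and generating sets (MP_9bf8b0_al, theorem CursorMap).
-/

set_option autoImplicit false

open Classical
open scoped Pointwise symmDiff

noncomputable section

namespace P9bf8b0H

open LQ LQ.LL

universe u v

theorem exists_list {G : Type u} [Group G] (S : Set G) (x : G) (hx : x ∈ Subgroup.closure S) :
    ∃ l : List G, (∀ s ∈ l, s ∈ S ∨ s⁻¹ ∈ S) ∧ l.prod = x := by
  induction hx using Subgroup.closure_induction with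
  | mem x hx => exact ⟨[x], by simpa using Or.inl hx, by simp⟩
  | one => exact ⟨[], by simp, by simp⟩
  | mul x y _ _ hx hy =>
    obtain ⟨l, hl, rfl⟩ := hx
    obtain ⟨m, hm, rfl⟩ := hy
    refine ⟨l ++ m, ?_, by simp⟩
    intro s hs
    rcases List.mem_append.1 hs with h | h
    · exact hl s h
    · exact hm s h
  | inv x _ hx =>
    obtain ⟨l, hl, rfl⟩ := hx
    refine ⟨(l.map (fun y => y⁻¹)).reverse, ?_, (List.prod_inv_reverse l).symm⟩
    intro s hs
    rw [List.mem_reverse, List.mem_map] at hs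
    obtain ⟨t, ht, rfl⟩ := hs
    rw [inv_inv]
    exact (hl t ht).symm

/-- A group given by a finite generating set has a copy in `Type`. -/
theorem exists_small (H : Type u) [Group H] (S : Finset H) (hS : Subgroup.closure (S : Set H) = ⊤) :
    ∃ (A : Type) (_ : Group A), Nonempty (A ≃* H) := by
  let U := {y : H // y ∈ (S : Set H) ∨ y⁻¹ ∈ (S : Set H)}
  have hU : Countable U := by
    have h1 : ((S : Set H) ∪ (S : Set H)⁻¹).Finite := S.finite_toSet.union S.finite_toSet.inv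
    have h2 : {y : H | y ∈ (S : Set H) ∨ y⁻¹ ∈ (S : Set H)}.Countable := h1.countable
    exact h2.to_subtype
  have hc : Countable H := by
    have hsurj : Function.Surjective (fun l : List U => (l.map Subtype.val).prod) := by
      intro x
      have hx : x ∈ Subgroup.closure (S : Set H) := by rw [hS]; trivial
      obtain ⟨l, hl, rfl⟩ := exists_list _ x hx
      refine ⟨l.attach.map (fun y => (⟨y.1, hl y.1 y.2⟩ : U)), ?_⟩
      simp
    exact hsurj.countable
  have hs : Small.{0} H := Countable.toSmall H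
  exact ⟨Shrink.{0} H, inferInstance, ⟨Shrink.mulEquiv⟩⟩

/-- Words over `S` and its inverses. -/
def WL {G : Type u} [Group G] (S : Set G) (g : G) : ℕ :=
  sInf {n | ∃ l : List G, l.length = n ∧ (∀ s ∈ l, s ∈ S ∨ s⁻¹ ∈ S) ∧ l.prod = g}

theorem mem_pow_iff {G : Type u} [Group G] (S : Set G) (n : ℕ) (x : G) :
    x ∈ (insert (1 : G) (S ∪ S⁻¹)) ^ n ↔
      ∃ l : List G, l.length ≤ n ∧ (∀ s ∈ l, s ∈ S ∨ s⁻¹ ∈ S) ∧ l.prod = x := by
  induction n generalizing x with
  | zero =>
    rw [pow_zero, Set.mem_one]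
    constructor
    · rintro rfl
      exact ⟨[], by simp, by simp, by simp⟩
    · rintro ⟨l, hl, -, rfl⟩
      have : l = [] := List.length_eq_zero_iff.1 (Nat.le_zero.1 hl)
      subst this
      simp
  | succ n ih =>
    rw [pow_succ', Set.mem_mul]
    constructor
    · rintro ⟨y, hy, z, hz, rfl⟩
      obtain ⟨l, hl, hs, rfl⟩ := (ih z).1 hz
      rcases hy with rfl | hy | hy
      · exact ⟨l, by omega, hs, by simp⟩
      · refine ⟨y :: l, by simpa using hl, ?_, by simp⟩
        intro s hs'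
        rcases List.mem_cons.1 hs' with rfl | h
        · exact Or.inl hy
        · exact hs s h
      · refine ⟨y :: l, by simpa using hl, ?_, by simp⟩
        intro s hs'
        rcases List.mem_cons.1 hs' with rfl | h
        · exact Or.inr hy
        · exact hs s h
    · rintro ⟨l, hl, hs, rfl⟩
      rcases l with _ | ⟨y, l⟩
      · refine ⟨1, Or.inl rfl, 1, ?_, by simp⟩
        exact Set.one_mem_pow (Or.inl rfl)
      · refine ⟨y, ?_, l.prod, ?_, by simp⟩
        · rcases hs y (by simp) with h | h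
          · exact Or.inr (Or.inl h)
          · exact Or.inr (Or.inr h)
        · exact (ih _).2 ⟨l, by simpa using hl, fun s h => hs s (by simp [h]), rfl⟩

theorem WL_eq {G : Type} [Group G] (S : Finset G) (hS : Subgroup.closure (S : Set G) = ⊤) (x : G) :
    WL (S : Set G) x = (NG.ofGen S hS).len x := by
  have key : ∀ n, (NG.ofGen S hS).len x ≤ n ↔
      ∃ l : List G, l.length ≤ n ∧ (∀ s ∈ l, s ∈ (S : Set G) ∨ s⁻¹ ∈ (S : Set G)) ∧ l.prod = x := by
    intro n
    rw [NG.ofGen_len_le, mem_pow_iff]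
  apply le_antisymm
  · obtain ⟨l, hl, hs, hp⟩ := (key _).1 le_rfl
    refine le_trans (Nat.sInf_le ⟨l, rfl, hs, hp⟩) hl
  · have hne : {n | ∃ l : List G, l.length = n ∧ (∀ s ∈ l, s ∈ (S : Set G) ∨ s⁻¹ ∈ (S : Set G)) ∧
        l.prod = x}.Nonempty := by
      obtain ⟨l, hl, hs, hp⟩ := (key _).1 le_rfl
      exact ⟨l.length, l, rfl, hs, hp⟩
    obtain ⟨l, hl, hs, hp⟩ := Nat.sInf_mem hne
    rw [key]
    exact ⟨l, le_of_eq hl, hs, hp⟩

theorem WL_equiv {G : Type u} {G' : Type v} [Group G] [Group G'] (i : G ≃* G') (S : Set G') (x : G) :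
    WL S (i x) = WL (i ⁻¹' S) x := by
  unfold WL
  congr 1
  ext n
  constructor
  · rintro ⟨l, rfl, hs, hp⟩
    refine ⟨l.map i.symm, by simp, ?_, ?_⟩
    · intro s hs'
      obtain ⟨t, ht, rfl⟩ := List.mem_map.1 hs'
      rcases hs t ht with h | h
      · left
        show i (i.symm t) ∈ S
        simpa using h
      · right
        show i (i.symm t)⁻¹ ∈ S
        simpa using h
    · have := congrArg i.symm hp
      rw [MulEquiv.symm_apply_apply, map_list_prod] at this
      exact this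
  · rintro ⟨l, rfl, hs, hp⟩
    refine ⟨l.map i, by simp, ?_, ?_⟩
    · intro s hs'
      obtain ⟨t, ht, rfl⟩ := List.mem_map.1 hs'
      rcases hs t ht with h | h
      · exact Or.inl h
      · right
        rw [← map_inv]
        exact h
    · rw [← hp, map_list_prod]

/-- The generating set pulled back through an isomorphism. -/
def pull {G : Type u} {G' : Type v} [Group G] [Group G'] (i : G ≃* G') (S : Finset G') : Finset G :=
  S.map i.symm.toEquiv.toEmbedding

theorem coe_pull {G : Type u} {G' : Type v} [Group G] [Group G'] (i : G ≃* G') (S : Finset G') :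
    (pull i S : Set G) = i ⁻¹' (S : Set G') := by
  ext x
  simp only [pull, Finset.coe_map, Set.mem_image, Finset.mem_coe, Set.mem_preimage]
  constructor
  · rintro ⟨y, hy, rfl⟩
    have e : i (i.symm y) = y := i.apply_symm_apply y
    show i (i.symm y) ∈ S
    rw [e]
    exact hy
  · intro h
    exact ⟨i x, h, i.symm_apply_apply x⟩

theorem closure_pull {G : Type u} {G' : Type v} [Group G] [Group G'] (i : G ≃* G') (S : Finset G')
    (hS : Subgroup.closure (S : Set G') = ⊤) : Subgroup.closure (pull i S : Set G) = ⊤ := by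
  have e : (pull i S : Set G) = i.symm.toMonoidHom '' (S : Set G') := by
    simp [pull]
  rw [e, ← MonoidHom.map_closure, hS]
  exact Subgroup.map_top_of_surjective _ i.symm.surjective

/-- Data for arbitrary word lengths of the lamplighter groups give data for the standard ones. -/
theorem data_wr {A B : Type} [Group A] [Group B] (a : NG A) (b : NG B) (w₁ : NG (LL A)) (w₂ : NG (LL B))
    (ψ : LL A → LL B) (K : ℕ)
    (h1 : ∀ x y, w₂.len ((ψ x)⁻¹ * ψ y) ≤ K * w₁.len (x⁻¹ * y) + K)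
    (h2 : ∀ x y, w₁.len (x⁻¹ * y) ≤ K * w₂.len ((ψ x)⁻¹ * ψ y) + K)
    (h3 : ∀ z, ∃ x, w₂.len ((ψ x)⁻¹ * z) ≤ K) :
    ∃ K0 : ℕ, (∀ x y, b.wr.len ((ψ x)⁻¹ * ψ y) ≤ K0 * a.wr.len (x⁻¹ * y) + K0) ∧
      (∀ x y, a.wr.len (x⁻¹ * y) ≤ K0 * b.wr.len ((ψ x)⁻¹ * ψ y) + K0) ∧
      (∀ z, ∃ x, b.wr.len ((ψ x)⁻¹ * z) ≤ K0) := by
  obtain ⟨C1, hC1⟩ := change_gen (MulEquiv.refl _) a.wr w₁
  obtain ⟨C2, hC2⟩ := change_gen (MulEquiv.refl _) b.wr w₂
  obtain ⟨C3, hC3⟩ := change_gen (MulEquiv.refl _) w₁ a.wr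
  obtain ⟨C4, hC4⟩ := change_gen (MulEquiv.refl _) w₂ b.wr
  simp only [MulEquiv.refl_apply] at hC1 hC2 hC3 hC4
  refine ⟨C4 * (K * C1) + C3 * (K * C2) + C4 * K + C3 * K, ?_, ?_, ?_⟩
  · intro X Y
    calc b.wr.len ((ψ X)⁻¹ * ψ Y)
        ≤ C4 * w₂.len ((ψ X)⁻¹ * ψ Y) := hC4 _
      _ ≤ C4 * (K * (C1 * a.wr.len (X⁻¹ * Y)) + K) :=
          Nat.mul_le_mul_left _ ((h1 X Y).trans (Nat.add_le_add_right (Nat.mul_le_mul_left _ (hC1 _)) _))
      _ ≤ _ := by
          have e : C4 * (K * (C1 * a.wr.len (X⁻¹ * Y)) + K)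
              = C4 * (K * C1) * a.wr.len (X⁻¹ * Y) + C4 * K := by ring
          rw [e, add_mul, add_mul, add_mul]
          omega
  · intro X Y
    calc a.wr.len (X⁻¹ * Y)
        ≤ C3 * w₁.len (X⁻¹ * Y) := hC3 _
      _ ≤ C3 * (K * (C2 * b.wr.len ((ψ X)⁻¹ * ψ Y)) + K) :=
          Nat.mul_le_mul_left _ ((h2 X Y).trans (Nat.add_le_add_right (Nat.mul_le_mul_left _ (hC2 _)) _))
      _ ≤ _ := by
          have e : C3 * (K * (C2 * b.wr.len ((ψ X)⁻¹ * ψ Y)) + K)
              = C3 * (K * C2) * b.wr.len ((ψ X)⁻¹ * ψ Y) + C3 * K := by ring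
          rw [e, add_mul, add_mul, add_mul]
          omega
  · intro Z
    obtain ⟨x, hx⟩ := h3 Z
    refine ⟨x, ?_⟩
    calc b.wr.len ((ψ x)⁻¹ * Z) ≤ C4 * w₂.len ((ψ x)⁻¹ * Z) := hC4 _
      _ ≤ C4 * K := Nat.mul_le_mul_left _ hx
      _ ≤ _ := by omega

end P9bf8b0H

end
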